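import Pool.Agent.Helper26.AL.GoalsA
import Pool.Agent.Helper93.AF.COR2

/-!
# Project AL (MP_af6c86_pr), packet FDA: every complex graph is a core with a forest
-/

set_option autoImplicit false

namespace Pool.Agent.Helper98.AL

open Finset Pool.Agent.Helper26.AF Pool.Agent.Helper26.AL

variable {k : ℕ}

/-- the partial decomposition -/
structure Cor (G : SimpleGraph (Fin k)) (S : Finset (Fin k)) (f : Fin k → Fin k) : Prop where
  isfor : IsFor S f
  adj : ∀ x, x ∉ S → G.Adj x (f x)
  cover : ∀ x y, G.Adj x y → (x ∈ S ∧ y ∈ S) ∨ (x ∉ S ∧ y = f x) ∨ (y ∉ S ∧ x = f y)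
  cx : CXG (gi G S)

theorem start (hINV0 : StmtINV0) (G : SimpleGraph (Fin k)) (h : CXG G) : Cor G univ id := by
  refine ⟨⟨fun x _ => rfl, fun x => ⟨0, mem_univ _⟩⟩, fun x hx => absurd (mem_univ x) hx,
    fun x y _ => Or.inl ⟨mem_univ _, mem_univ _⟩, ?_⟩
  have hb : Function.Bijective ((univ : Finset (Fin k)).orderEmbOfFin rfl) := by
    refine ⟨((univ : Finset (Fin k)).orderEmbOfFin rfl).injective, fun y => ?_⟩
    exact Pool.Agent.Helper93.AF.exists_idx univ y (mem_univ y)
  exact (hINV0 (Fin k) (Fin #(univ : Finset (Fin k))) (Equiv.ofBijective _ hb) G).1.mpr h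

/-- a vertex without neighbours in `S` contradicts `CXG` -/
theorem isolated (G : SimpleGraph (Fin k)) (S : Finset (Fin k)) (h : CXG (gi G S)) (x : Fin k)
    (hx : x ∈ S) (hn : ∀ y ∈ S, ¬ G.Adj x y) : False := by
  obtain ⟨i, hi⟩ := Pool.Agent.Helper93.AF.exists_idx S x hx
  have hadj : ∀ j, ¬ (gi G S).Adj i j := by
    intro j hj
    change G.Adj (S.orderEmbOfFin rfl i) (S.orderEmbOfFin rfl j) at hj
    rw [hi] at hj
    exact hn _ (Finset.orderEmbOfFin_mem S rfl j) hj
  have hcomp : IsComp (gi G S) {i} := by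
    refine ⟨(gi G S).connectedComponentMk i, ?_⟩
    ext v
    rw [SimpleGraph.ConnectedComponent.mem_supp_iff, SimpleGraph.ConnectedComponent.eq,
      Finset.coe_singleton, Set.mem_singleton_iff]
    constructor
    · intro hr
      obtain ⟨w⟩ := hr.symm
      cases w with
      | nil => rfl
      | cons h1 _ => exact absurd h1 (hadj _)
    · rintro rfl
      exact SimpleGraph.Reachable.refl _
  have h1 := h {i} hcomp
  have h2 : eIn (gi G S) {i} = 0 := by
    unfold eIn
    have : IsEmpty {e : Sym2 (Fin #S) // e ∈ (gi G S).edgeSet ∧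
        ∀ v ∈ e, v ∈ ({i} : Finset (Fin #S))} := by
      refine ⟨?_⟩
      rintro ⟨e, he, hv⟩
      induction e using Sym2.ind with
      | _ a b =>
        have ha := Finset.mem_singleton.mp (hv a (Sym2.mem_mk_left a b))
        rw [SimpleGraph.mem_edgeSet, ha] at he
        exact hadj b he
    exact Nat.card_of_isEmpty
  rw [h2] at h1
  simp at h1

theorem peel (hLFG : StmtLFG) (G : SimpleGraph (Fin k)) (S : Finset (Fin k)) (f : Fin k → Fin k)
    (h : Cor G S f) (x : Fin k) (hx : x ∈ S)
    (hd : ∀ y ∈ S, ∀ z ∈ S, G.Adj x y → G.Adj x z → y = z) :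
    ∃ (S' : Finset (Fin k)) (f' : Fin k → Fin k), #S' < #S ∧ Cor G S' f' := by
  by_cases hy : ∃ y ∈ S, G.Adj x y
  · obtain ⟨y, hyS, hxy⟩ := hy
    have hyx : y ≠ x := fun e => G.loopless.irrefl x (by rw [e] at hxy; exact hxy)
    have uniq : ∀ z ∈ S, G.Adj x z → z = y := fun z hz hxz => hd z hz y hyS hxz hxy
    refine ⟨S.erase x, Function.update f x y, Finset.card_erase_lt_of_mem hx, ?_⟩
    have hfx : Function.update f x y x = y := Function.update_self x y f
    have hfo : ∀ z, z ≠ x → Function.update f x y z = f z := fun z hz =>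
      Function.update_of_ne hz y f
    have hy' : y ∈ S.erase x := Finset.mem_erase.2 ⟨hyx, hyS⟩
    have hxS' : x ∉ S.erase x := Finset.notMem_erase x S
    refine ⟨⟨?_, ?_⟩, ?_, ?_, (hLFG k G S x y hx hyS hxy uniq).1.mpr h.cx⟩
    · intro z hz
      rw [hfo z (Finset.ne_of_mem_erase hz)]
      exact h.isfor.1 z (Finset.mem_of_mem_erase hz)
    · have key : ∀ (i : ℕ) (z : Fin k), f^[i] z ∈ S →
          ∃ j : ℕ, (Function.update f x y)^[j] z ∈ S.erase x := by
        intro i
        induction i with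
        | zero =>
          intro z hz
          by_cases hzx : z = x
          · refine ⟨1, ?_⟩
            rw [Function.iterate_one, hzx, hfx]
            exact hy'
          · exact ⟨0, Finset.mem_erase.2 ⟨hzx, hz⟩⟩
        | succ i ih =>
          intro z hz
          by_cases hzx : z = x
          · refine ⟨1, ?_⟩
            rw [Function.iterate_one, hzx, hfx]
            exact hy'
          · rw [Function.iterate_succ_apply] at hz
            obtain ⟨j, hj⟩ := ih (f z) hz
            refine ⟨j + 1, ?_⟩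
            rw [Function.iterate_succ_apply, hfo z hzx]
            exact hj
      intro z
      obtain ⟨i, hi⟩ := h.isfor.2 z
      exact key i z hi
    · intro z hz
      by_cases hzx : z = x
      · rw [hzx, hfx]; exact hxy
      · rw [hfo z hzx]
        exact h.adj z fun hzS => hz (Finset.mem_erase.2 ⟨hzx, hzS⟩)
    · intro a b hab
      rcases h.cover a b hab with ⟨ha, hb⟩ | ⟨ha, hb⟩ | ⟨hb, ha⟩
      · by_cases hax : a = x
        · right; left
          subst hax
          refine ⟨hxS', ?_⟩
          rw [hfx]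
          exact uniq b hb hab
        · by_cases hbx : b = x
          · right; right
            subst hbx
            refine ⟨hxS', ?_⟩
            rw [hfx]
            exact uniq a ha hab.symm
          · exact Or.inl ⟨Finset.mem_erase.2 ⟨hax, ha⟩, Finset.mem_erase.2 ⟨hbx, hb⟩⟩
      · right; left
        have hax : a ≠ x := fun e => ha (e ▸ hx)
        refine ⟨fun h' => ha (Finset.mem_of_mem_erase h'), ?_⟩
        rw [hfo a hax]; exact hb
      · right; right
        have hbx : b ≠ x := fun e => hb (e ▸ hx)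
        refine ⟨fun h' => hb (Finset.mem_of_mem_erase h'), ?_⟩
        rw [hfo b hbx]; exact ha
  · exfalso
    push Not at hy
    exact isolated G S h.cx x hx hy

theorem exists_core (hLFG : StmtLFG) (G : SimpleGraph (Fin k)) : ∀ (N : ℕ)
    (S : Finset (Fin k)) (f : Fin k → Fin k), #S = N → Cor G S f →
    ∃ (S' : Finset (Fin k)) (f' : Fin k → Fin k), Cor G S' f' ∧
      ∀ x ∈ S', ∃ y ∈ S', ∃ z ∈ S', G.Adj x y ∧ G.Adj x z ∧ y ≠ z := by
  intro N
  induction N using Nat.strong_induction_on with
  | _ N ih =>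
    intro S f hN hS
    by_cases hd : ∀ x ∈ S, ∃ y ∈ S, ∃ z ∈ S, G.Adj x y ∧ G.Adj x z ∧ y ≠ z
    · exact ⟨S, f, hS, hd⟩
    · push Not at hd
      obtain ⟨x, hx, hd⟩ := hd
      obtain ⟨S', f', h1, h2⟩ := peel hLFG G S f hS x hx
        (fun y hy z hz h1 h2 => hd y hy z hz h1 h2)
      exact ih #S' (by omega) S' f' rfl h2

/-- PACKET FDA of project AL -/
theorem goalFDA (hLFG : Pool.Agent.Helper26.AL.StmtLFG)
    (hINV0 : Pool.Agent.Helper26.AL.StmtINV0) : Pool.Agent.Helper26.AL.StmtFDA := by
  intro k G hG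
  obtain ⟨S, f, hS, hd⟩ := exists_core hLFG G _ univ id rfl (start hINV0 G hG)
  refine ⟨S, f, hS.isfor, ?_, ?_⟩
  · intro v
    exact Pool.Agent.Helper93.AF.gam_deg G S hd v
  · ext x y
    rw [Pool.Agent.Helper16.AF.gr_adj hS.isfor]
    constructor
    · intro hxy
      rcases hS.cover x y hxy with ⟨hx, hy⟩ | ⟨hx, hy⟩ | ⟨hy, hx⟩
      · left
        obtain ⟨i, hi⟩ := Pool.Agent.Helper93.AF.exists_idx S x hx
        obtain ⟨j, hj⟩ := Pool.Agent.Helper93.AF.exists_idx S y hy
        rw [SimpleGraph.map_adj]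
        refine ⟨i, j, ?_, hi, hj⟩
        change G.Adj (S.orderEmbOfFin rfl i) (S.orderEmbOfFin rfl j)
        rw [hi, hj]
        exact hxy
      · exact Or.inr (Or.inl ⟨hx, hy.symm⟩)
      · exact Or.inr (Or.inr ⟨hy, hx.symm⟩)
    · rintro (h1 | ⟨hx, hy⟩ | ⟨hy, hx⟩)
      · rw [SimpleGraph.map_adj] at h1
        obtain ⟨i, j, hij, hi, hj⟩ := h1
        change G.Adj (S.orderEmbOfFin rfl i) (S.orderEmbOfFin rfl j) at hij
        change S.orderEmbOfFin rfl i = x at hi
        change S.orderEmbOfFin rfl j = y at hj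
        rw [hi, hj] at hij
        exact hij
      · rw [← hy]
        exact hS.adj x hx
      · rw [← hx]
        exact (hS.adj y hy).symm

end Pool.Agent.Helper98.AL
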