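import Pool.Agent.Helper26.AL.GoalsA
import Pool.Agent.Helper26.AL.GoalsB
import Pool.Agent.Helper24.AF.TRS

/-!
# Project AL (MP_af6c86_pr), packet TRX: relabelling, exact
-/

set_option autoImplicit false

namespace Pool.Agent.Helper98.AL

open Finset Pool.Agent.Helper26.AF Pool.Agent.Helper26.AL

/-- the graphs of the right side -/
def RT (o : Option ℕ) (r N : ℕ) (Γ : SimpleGraph (Fin (2 * r + N))) : Prop :=
  (∀ v, 2 ≤ dg Γ v) ∧ CXG Γ ∧ ne Γ = 2 * r + N + r ∧ EO o Γ ∧ ∀ v, dg Γ v ≤ 3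

theorem eo_comap (hINV0 : StmtINV0) {V W : Type} [Fintype V] [DecidableEq V] [Fintype W]
    [DecidableEq W] (e : W ≃ V) (G : SimpleGraph V) (o : Option ℕ) :
    EO o (G.comap e) ↔ EO o G := by
  have h := (hINV0 V W e G).2.2.2.2.2
  unfold EO
  exact forall_congr' fun g => imp_congr_right fun _ => h g

/-- transport of the cubic graphs -/
theorem fwd (hINV0 : StmtINV0) (o : Option ℕ) (r N : ℕ)
    (e : Fin (2 * r) ⊕ Fin N ≃ Fin (2 * r + N)) (Γ : SimpleGraph (Fin (2 * r) ⊕ Fin N))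
    (h : CubG o r N Γ) : RT o r N (Γ.comap e.symm) := by
  obtain ⟨h1, h2, h3, h4⟩ := h
  obtain ⟨i1, -, -, i4, i5, -⟩ := hINV0 _ _ e.symm Γ
  have hd : ∀ v, dg Γ v = 2 ∨ dg Γ v = 3 := by
    rintro (x | y)
    · exact Or.inr (h2 x)
    · exact Or.inl (h3 y)
  refine ⟨?_, i1.mpr h1, ?_, (eo_comap hINV0 e.symm Γ o).mpr h4, ?_⟩
  · intro v
    rw [i5]
    have := hd (e.symm v)
    omega
  · rw [i4]
    have h5 := Pool.Agent.Helper24.AF.two_ne Γ
    rw [Fintype.sum_sum_type] at h5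
    simp only [h2, h3, sum_const, card_univ, Fintype.card_fin, smul_eq_mul] at h5
    omega
  · intro v
    rw [i5]
    have := hd (e.symm v)
    omega

/-- the vertices of degree three -/
theorem memB (hINV0 : StmtINV0) (o : Option ℕ) (r N : ℕ)
    (e : Fin (2 * r) ⊕ Fin N ≃ Fin (2 * r + N)) (B : Finset (Fin (2 * r + N)))
    (he1 : ∀ x, e (Sum.inl x) ∈ B) (he2 : ∀ y, e (Sum.inr y) ∉ B)
    (Γ : SimpleGraph (Fin (2 * r) ⊕ Fin N)) (h : CubG o r N Γ) (v : Fin (2 * r + N)) :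
    v ∈ B ↔ dg (Γ.comap e.symm) v = 3 := by
  obtain ⟨-, h2, h3, -⟩ := h
  obtain ⟨-, -, -, -, i5, -⟩ := hINV0 _ _ e.symm Γ
  rw [i5]
  obtain ⟨w, rfl⟩ := e.surjective v
  rw [Equiv.symm_apply_apply]
  rcases w with x | y
  · rw [h2]
    exact ⟨fun _ => rfl, fun _ => he1 x⟩
  · rw [h3]
    exact ⟨fun h => absurd h (he2 y), fun h => absurd h (by norm_num)⟩

/-- the number of the vertices of degree three -/
theorem cardB (r N : ℕ) (Γ : SimpleGraph (Fin (2 * r + N))) (h2 : ∀ v, 2 ≤ dg Γ v)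
    (h3 : ∀ v, dg Γ v ≤ 3) (hne : ne Γ = 2 * r + N + r) :
    #(univ.filter (fun v => dg Γ v = 3)) = 2 * r := by
  have h5 := Pool.Agent.Helper24.AF.two_ne Γ
  have h6 : ∀ v, dg Γ v = 2 + if dg Γ v = 3 then 1 else 0 := by
    intro v
    have a := h2 v
    have b := h3 v
    split_ifs <;> omega
  have h7 : ∑ v, dg Γ v = ∑ v : Fin (2 * r + N), (2 + if dg Γ v = 3 then 1 else 0) :=
    Finset.sum_congr rfl fun v _ => h6 v
  rw [h7, Finset.sum_add_distrib, Finset.sum_boole] at h5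
  simp only [sum_const, card_univ, Fintype.card_fin, smul_eq_mul, Nat.cast_id] at h5
  omega

theorem bwd (hINV0 : StmtINV0) (o : Option ℕ) (r N : ℕ)
    (e : Fin (2 * r) ⊕ Fin N ≃ Fin (2 * r + N)) (Γ : SimpleGraph (Fin (2 * r + N)))
    (h : RT o r N Γ) (he1 : ∀ x, dg Γ (e (Sum.inl x)) = 3) (he2 : ∀ y, dg Γ (e (Sum.inr y)) ≠ 3) :
    CubG o r N (Γ.comap e) := by
  obtain ⟨h1, h2, h3, h4, h5⟩ := h
  obtain ⟨i1, -, -, -, i5, -⟩ := hINV0 _ _ e Γ
  refine ⟨i1.mpr h2, ?_, ?_, (eo_comap hINV0 e Γ o).mpr h4⟩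
  · intro x
    rw [i5]
    exact he1 x
  · intro y
    rw [i5]
    have a := h1 (e (Sum.inr y))
    have b := h5 (e (Sum.inr y))
    have c := he2 y
    omega

theorem comap_symm {V W : Type} (e : W ≃ V) (Γ : SimpleGraph V) :
    (Γ.comap e).comap e.symm = Γ := by
  ext a b
  simp

theorem comap_symm' {V W : Type} (e : W ≃ V) (Γ : SimpleGraph W) :
    (Γ.comap e.symm).comap e = Γ := by
  ext a b
  simp

/-- PACKET TRX of project AL -/
theorem goalTRX (hINV0 : Pool.Agent.Helper26.AL.StmtINV0) : Pool.Agent.Helper26.AL.StmtTRX := by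
  classical
  intro o r N
  have hch : (2 * r + N).choose (2 * r) =
      Nat.card {B : Finset (Fin (2 * r + N)) // #B = 2 * r} := by
    rw [Nat.card_eq_fintype_card, Fintype.card_finset_len, Fintype.card_fin]
  rw [hch, ← Nat.card_prod]
  choose e he1 he2 using fun B : {B : Finset (Fin (2 * r + N)) // #B = 2 * r} =>
    Pool.Agent.Helper24.AF.exists_equiv B.1 B.2
  let F : {B : Finset (Fin (2 * r + N)) // #B = 2 * r} ×
      {Γ : SimpleGraph (Fin (2 * r) ⊕ Fin N) // CubG o r N Γ} →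
      {Γ : SimpleGraph (Fin (2 * r + N)) // RT o r N Γ} := fun p =>
    ⟨p.2.1.comap (e p.1).symm, fwd hINV0 o r N (e p.1) p.2.1 p.2.2⟩
  have hF : Function.Bijective F := by
    constructor
    · rintro ⟨B, Γ⟩ ⟨B', Γ'⟩ h
      have h1 : Γ.1.comap (e B).symm = Γ'.1.comap (e B').symm := congrArg Subtype.val h
      have hB : B = B' := by
        apply Subtype.ext
        ext v
        rw [memB hINV0 o r N (e B) B.1 (he1 B) (he2 B) Γ.1 Γ.2 v,
          memB hINV0 o r N (e B') B'.1 (he1 B') (he2 B') Γ'.1 Γ'.2 v, h1]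
      subst hB
      have h2 : Γ.1 = Γ'.1 := by
        rw [← comap_symm' (e B) Γ.1, ← comap_symm' (e B) Γ'.1, h1]
      rw [Subtype.ext h2]
    · rintro ⟨Γ, h⟩
      have hc := cardB r N Γ h.1 h.2.2.2.2 h.2.2.1
      let B : {B : Finset (Fin (2 * r + N)) // #B = 2 * r} :=
        ⟨univ.filter (fun v => dg Γ v = 3), hc⟩
      have hb := bwd hINV0 o r N (e B) Γ h
        (fun x => (Finset.mem_filter.mp (he1 B x)).2)
        (fun y hy => he2 B y (Finset.mem_filter.mpr ⟨mem_univ _, hy⟩))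
      refine ⟨⟨B, ⟨Γ.comap (e B), hb⟩⟩, ?_⟩
      apply Subtype.ext
      exact comap_symm (e B) Γ
  exact Nat.card_congr (Equiv.ofBijective F hF)

end Pool.Agent.Helper98.AL
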